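import Pool.Agent.H17.CI.TargetsC
import Pool.Agent.H92.VGH.LinC

/-!
# The lemma on steps
-/

set_option autoImplicit false

open Module

namespace Pool.Agent.H42.CI

open MvPolynomial SC Pool.Agent.H27.LV Pool.Agent.H17.VG Pool.Agent.H17.CI Pool.Agent.H92.VGH

/-- the lemma on steps -/
theorem pf_CT : T_CT := by
  intro K V E N _ _ _ _ _ _ _ _ _ _ B t δ hS ht hH
  set S : Submodule K N := Submodule.span K {w | ∃ v q, w = B v q} with hSd
  have hmem : ∀ v q, B v q ∈ S := fun v q => Submodule.subset_span ⟨v, q, rfl⟩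
  let B' : V →ₗ[K] E →ₗ[K] S :=
    { toFun := fun v => (B v).codRestrict S (hmem v)
      map_add' := fun v w => by
        ext q
        simp
      map_smul' := fun c v => by
        ext q
        simp }
  have hB' : ∀ v q, ((B' v q : S) : N) = B v q := fun v q => rfl
  have hmap : ∀ (Z : Set S) (Z' : Set N), (∀ z : S, z ∈ Z → (z : N) ∈ Z') →
      (∀ w ∈ Z', ∃ z ∈ Z, (z : N) = w) →
      finrank K (Submodule.span K Z) = finrank K (Submodule.span K Z') := by
    intro Z Z' h1 h2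
    have h3 : (Submodule.span K Z).map S.subtype = Submodule.span K Z' := by
      rw [Submodule.map_span]
      congr 1
      ext w
      constructor
      · rintro ⟨z, hz, rfl⟩
        exact h1 z hz
      · intro hw
        obtain ⟨z, hz, rfl⟩ := h2 w hw
        exact ⟨z, hz, rfl⟩
    rw [← h3, Submodule.finrank_map_subtype_eq]
  have hsp : ∀ U : Submodule K S, (∀ v e, B' v e ∈ U) → U = ⊤ := by
    intro U hU
    have h1 : S ≤ U.map S.subtype := by
      refine Submodule.span_le.2 ?_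
      rintro _ ⟨v, q, rfl⟩
      exact ⟨B' v q, hU v q, rfl⟩
    rw [eq_top_iff]
    rintro ⟨z, hz⟩ -
    obtain ⟨y, hy, hyz⟩ := h1 hz
    have : y = ⟨z, hz⟩ := Subtype.ext hyz
    rwa [← this]
  have hHH : ∀ φ : V →ₗ[K] K, φ ≠ 0 →
      finrank K S ≤ δ + finrank K (Submodule.span K {z : S | ∃ v e, φ v = 0 ∧ z = B' v e}) := by
    intro φ hφ
    have h1 := hH φ hφ
    have h2 : finrank K (Submodule.span K {z : S | ∃ v e, φ v = 0 ∧ z = B' v e}) =
        finrank K (Submodule.span K {w : N | ∃ v q, φ v = 0 ∧ w = B v q}) := by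
      refine hmap _ _ ?_ ?_
      · rintro z ⟨v, q, hv, rfl⟩
        exact ⟨v, q, hv, rfl⟩
      · rintro w ⟨v, q, hv, rfl⟩
        exact ⟨B' v q, ⟨v, q, hv, rfl⟩, rfl⟩
    omega
  obtain ⟨Q, hQ⟩ := linC B' t δ (by omega) hS hsp hHH ht
  refine ⟨Q, ?_⟩
  have h1 : finrank K (US B' Q) = finrank K (im B Q) := by
    refine hmap _ _ ?_ ?_
    · rintro z ⟨v, i, rfl⟩
      exact ⟨v, i, rfl⟩
    · rintro w ⟨v, i, rfl⟩
      exact ⟨B' v (Q i), ⟨v, i, rfl⟩, rfl⟩
  rwa [h1] at hQ

end Pool.Agent.H42.CI
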